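import Pool.Agent.N328.LF.Defs

/-!
# Project LF (helper328), part BIG (helper492): large sets of vertices of a random lift
-/

set_option autoImplicit false

namespace Pool.Agent.N492.LF

open Finset Pool.Agent.H160R2.HF Pool.Agent.N328.LF

section

variable {V E : Type} [Fintype V] [Fintype E] [DecidableEq V] [DecidableEq E] {N : ℕ}

/-- The fibres of a set. -/
def fib (X : Finset (V × Fin N)) (v : V) : Finset (Fin N) := univ.filter fun i => (v, i) ∈ X

theorem mem_fib {X : Finset (V × Fin N)} {v : V} {i : Fin N} : i ∈ fib X v ↔ (v, i) ∈ X := by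
  simp [fib]

theorem card_eq (X : Finset (V × Fin N)) : X.card = ∑ v, (fib X v).card := by
  have h1 : X = univ.filter (fun y => y ∈ X) := by ext y; simp
  conv_lhs => rw [h1, Finset.card_filter, Fintype.sum_prod_type]
  refine Finset.sum_congr rfl fun v _ => ?_
  rw [fib, Finset.card_filter]

theorem fib_inj : Function.Injective (fib : Finset (V × Fin N) → V → Finset (Fin N)) := by
  intro X Y h
  ext ⟨v, i⟩
  rw [← mem_fib, ← mem_fib, h]

/-- The number of the points where a permutation does not respect the two sets. -/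
def dev (σ : Equiv.Perm (Fin N)) (A A' : Finset (Fin N)) : ℕ :=
  (univ.filter (fun i => ¬ (i ∈ A ↔ σ i ∈ A'))).card

theorem dev_le_cut (B : OrGraph V E) (p : E → Equiv.Perm (Fin N)) (X : Finset (V × Fin N)) (e : E) :
    dev (p e) (fib X (B.t e)) (fib X (B.h e)) ≤ ((lift B p).cut X).card := by
  refine Finset.card_le_card_of_injOn (fun i => (e, i)) ?_ ?_
  · intro i hi
    have h1 := (Finset.mem_filter.1 (Finset.mem_coe.1 hi)).2
    rw [mem_fib, mem_fib] at h1
    exact Finset.mem_coe.2 (Finset.mem_filter.2 ⟨Finset.mem_univ _, h1⟩)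
  · intro i _ j _ h
    exact (Prod.mk.inj h).2

theorem card_le_dev (σ : Equiv.Perm (Fin N)) (A A' : Finset (Fin N)) :
    A.card ≤ A'.card + dev σ A A' ∧ A'.card ≤ A.card + dev σ A A' := by
  have h1 : A'.card = (univ.filter (fun i => σ i ∈ A')).card := by
    have e1 : (univ.filter (fun i => σ i ∈ A')) = A'.map σ.symm.toEmbedding := by
      ext i
      simp only [Finset.mem_filter, Finset.mem_univ, true_and, Finset.mem_map_equiv,
        Equiv.symm_symm]
    rw [e1, Finset.card_map]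
  constructor
  · rw [h1]
    refine le_trans (Finset.card_le_card (t := (univ.filter (fun i => σ i ∈ A')) ∪
      (univ.filter (fun i => ¬ (i ∈ A ↔ σ i ∈ A')))) ?_) (Finset.card_union_le _ _)
    intro i hi
    rw [Finset.mem_union, Finset.mem_filter, Finset.mem_filter]
    by_cases h : σ i ∈ A'
    · exact Or.inl ⟨Finset.mem_univ _, h⟩
    · exact Or.inr ⟨Finset.mem_univ _, fun h2 => h (h2.1 hi)⟩
  · rw [h1]
    refine le_trans (Finset.card_le_card (t := A ∪
      (univ.filter (fun i => ¬ (i ∈ A ↔ σ i ∈ A')))) ?_) (Finset.card_union_le _ _)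
    intro i hi
    have hi' := (Finset.mem_filter.1 hi).2
    rw [Finset.mem_union, Finset.mem_filter]
    by_cases h : i ∈ A
    · exact Or.inl h
    · exact Or.inr ⟨Finset.mem_univ _, fun h2 => h (h2.2 hi')⟩

/-- Some fibre is of middle size. -/
theorem middle (B : OrGraph V E) (hB : Connected B) {c α d : ℝ} (hc0 : 0 < c)
    (hα1 : α * (Fintype.card V + 1) ≤ c / 2) (hα2 : α ≤ 1 / 4) (hd : d ≤ 1 / 4) (hN : 1 ≤ N)
    (hα0 : 0 < α)
    (p : E → Equiv.Perm (Fin N)) (X : Finset (V × Fin N)) (h1 : c * N ≤ X.card)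
    (h2 : 2 * X.card ≤ Fintype.card V * N) (h3 : (((lift B p).cut X).card : ℝ) ≤ d * N) :
    ∃ v, α * N ≤ (fib X v).card ∧ ((fib X v).card : ℝ) ≤ (1 - α) * N := by
  classical
  by_contra hne
  push Not at hne
  have hN0 : (0 : ℝ) < N := by exact_mod_cast hN
  have hXr : (X.card : ℝ) = ∑ v, ((fib X v).card : ℝ) := by rw [card_eq X]; push_cast; rfl
  have hX0 : (0 : ℝ) < X.card := lt_of_lt_of_le (by positivity) h1
  set Y : Finset V := univ.filter fun v => (1 - α) * N < (fib X v).card with hY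
  have hYc : ∀ v, v ∉ Y → ((fib X v).card : ℝ) < α * N := by
    intro v hv
    by_contra h4
    push Not at h4
    exact hv (Finset.mem_filter.2 ⟨Finset.mem_univ _, hne v h4⟩)
  have hYm : ∀ v, v ∈ Y → (1 - α) * N < (fib X v).card := fun v hv => (Finset.mem_filter.1 hv).2
  rcases Y.eq_empty_or_nonempty with hYe | hYn
  · have h4 : (X.card : ℝ) ≤ Fintype.card V * (α * N) := by
      rw [hXr]
      refine (Finset.sum_le_card_nsmul _ _ (α * N) fun v _ => (hYc v (by rw [hYe]; simp)).le).trans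
        (le_of_eq ?_)
      rw [Finset.card_univ, nsmul_eq_mul]
    have h5 : (0 : ℝ) ≤ Fintype.card V := Nat.cast_nonneg _
    nlinarith [mul_pos hα0 hN0, mul_pos hc0 hN0]
  rcases (Yᶜ).eq_empty_or_nonempty with hYe | hYn'
  · have hall : ∀ v, v ∈ Y := fun v => by
      have h4 : v ∉ Yᶜ := by rw [hYe]; simp
      rwa [Finset.mem_compl, not_not] at h4
    have h4 : (Fintype.card V : ℝ) * ((1 - α) * N) ≤ X.card := by
      rw [hXr]
      refine le_trans (le_of_eq ?_) (Finset.card_nsmul_le_sum _ _ ((1 - α) * N)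
        fun v _ => (hYm v (hall v)).le)
      rw [Finset.card_univ, nsmul_eq_mul]
    have h5 : (0 : ℝ) ≤ Fintype.card V := Nat.cast_nonneg _
    have h6 : (2 : ℝ) * X.card ≤ Fintype.card V * N := by exact_mod_cast h2
    have h7 : (Fintype.card V : ℝ) * N * (3 / 4) ≤ Fintype.card V * ((1 - α) * N) := by
      have := mul_nonneg h5 hN0.le
      nlinarith
    nlinarith [mul_nonneg h5 hN0.le]
  · obtain ⟨e, he⟩ := hB Y hYn hYn'
    have he' := (Finset.mem_filter.1 he).2
    have h4 := card_le_dev (p e) (fib X (B.t e)) (fib X (B.h e))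
    have h5 : ((dev (p e) (fib X (B.t e)) (fib X (B.h e)) : ℕ) : ℝ) ≤ d * N :=
      le_trans (by exact_mod_cast dev_le_cut B p X e) h3
    have h6 : ((fib X (B.t e)).card : ℝ) ≤ (fib X (B.h e)).card +
        dev (p e) (fib X (B.t e)) (fib X (B.h e)) := by exact_mod_cast h4.1
    have h7 : ((fib X (B.h e)).card : ℝ) ≤ (fib X (B.t e)).card +
        dev (p e) (fib X (B.t e)) (fib X (B.h e)) := by exact_mod_cast h4.2
    by_cases ht : B.t e ∈ Y
    · have hh : B.h e ∉ Y := fun hh => he' ⟨fun _ => hh, fun _ => ht⟩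
      have g1 := hYm _ ht
      have g2 := hYc _ hh
      nlinarith
    · have hh : B.h e ∈ Y := by
        by_contra hh
        exact he' ⟨fun h => absurd h ht, fun h => absurd h hh⟩
      have g1 := hYm _ hh
      have g2 := hYc _ ht
      nlinarith

/-- The product over the ends of the edges. -/
theorem prod_ends (B : OrGraph V E) (hc : B.Cubic) (g : V → ℝ) :
    ∏ e, (g (B.t e) * g (B.h e)) = ∏ v, g v ^ 3 := by
  have key : ∀ f : E → V, ∏ e, g (f e) = ∏ v, g v ^ (univ.filter fun e => f e = v).card := by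
    intro f
    rw [← Finset.prod_fiberwise (s := univ) (g := f)]
    refine Finset.prod_congr rfl fun v _ => ?_
    rw [← Finset.prod_const]
    refine Finset.prod_congr rfl fun e he => ?_
    rw [(Finset.mem_filter.1 he).2]
  rw [Finset.prod_mul_distrib, key, key, ← Finset.prod_mul_distrib]
  refine Finset.prod_congr rfl fun v _ => ?_
  rw [← pow_add]
  congr 1
  exact hc v

theorem sum_inv_fin (N : ℕ) : ∑ A : Finset (Fin N), (1 / (N.choose A.card) : ℝ) = N + 1 := by
  have h1 := Finset.sum_powerset_apply_card (x := (univ : Finset (Fin N)))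
    (fun k => (1 / (N.choose k) : ℝ))
  rw [Finset.powerset_univ, Finset.card_univ, Fintype.card_fin] at h1
  rw [h1]
  have h2 : ∀ k ∈ range (N + 1), (N.choose k) • (1 / (N.choose k) : ℝ) = 1 := by
    intro k hk
    have h3 : 0 < N.choose k := Nat.choose_pos (by rw [Finset.mem_range] at hk; omega)
    have h4 : (N.choose k : ℝ) ≠ 0 := by exact_mod_cast h3.ne'
    rw [nsmul_eq_mul]
    field_simp
  rw [Finset.sum_congr rfl h2]
  simp

theorem sum_inv (V : Type) [Fintype V] [DecidableEq V] (N : ℕ) :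
    ∑ X : Finset (V × Fin N), ∏ v, (1 / (N.choose (fib X v).card) : ℝ) ≤
      ((N : ℝ) + 1) ^ Fintype.card V := by
  classical
  have h1 : ((N : ℝ) + 1) ^ Fintype.card V =
      ∑ A : V → Finset (Fin N), ∏ v, (1 / (N.choose (A v).card) : ℝ) := by
    have h2 := Finset.prod_univ_sum (fun _ : V => (univ : Finset (Finset (Fin N))))
      (fun _ A => (1 / (N.choose A.card) : ℝ))
    rw [Fintype.piFinset_univ] at h2
    rw [← h2]
    simp only [sum_inv_fin, Finset.prod_const, Finset.card_univ]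
  rw [h1]
  have h3 : ∑ X : Finset (V × Fin N), ∏ v, (1 / (N.choose (fib X v).card) : ℝ) =
      ∑ A ∈ univ.image (fib : Finset (V × Fin N) → V → Finset (Fin N)),
        ∏ v, (1 / (N.choose (A v).card) : ℝ) := by
    rw [Finset.sum_image fun X _ Y _ h => fib_inj h]
  rw [h3]
  exact Finset.sum_le_sum_of_subset_of_nonneg (Finset.subset_univ _)
    fun A _ _ => Finset.prod_nonneg fun v _ => by positivity

theorem absIneq {F G T s : ℝ} (hF0 : 0 ≤ F) (hG0 : 0 < G) (hT0 : 0 ≤ T) (hs0 : 0 < s)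
    (hF : F ^ 2 * G ^ 3 ≤ T ^ 2) (hGs : 1 ≤ G * s ^ 2) : F * G ≤ T * s := by
  refine le_of_sq_le_sq ?_ (mul_nonneg hT0 hs0.le)
  have h0 : 0 ≤ (F * G) ^ 2 := sq_nonneg _
  have h1 : (F * G) ^ 2 ≤ (F * G) ^ 2 * (G * s ^ 2) := le_mul_of_one_le_right h0 hGs
  have h2 : (F * G) ^ 2 * (G * s ^ 2) = (F ^ 2 * G ^ 3) * s ^ 2 := by ring
  have h3 : (F ^ 2 * G ^ 3) * s ^ 2 ≤ T ^ 2 * s ^ 2 := mul_le_mul_of_nonneg_right hF (sq_nonneg _)
  have h4 : T ^ 2 * s ^ 2 = (T * s) ^ 2 := by ring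
  linarith

/-- The count for one set. -/
theorem count (B : OrGraph V E) (hc : B.Cubic)
    (hu2 : ∀ (N : ℕ) (A B : Finset (Fin N)) (d : ℕ),
      (univ.filter (fun σ : Equiv.Perm (Fin N) =>
        (univ.filter (fun i => ¬ (i ∈ A ↔ σ i ∈ B))).card ≤ d)).card * N.choose A.card ≤
          N.factorial * vol N d ∧
      (univ.filter (fun σ : Equiv.Perm (Fin N) =>
        (univ.filter (fun i => ¬ (i ∈ A ↔ σ i ∈ B))).card ≤ d)).card * N.choose B.card ≤
          N.factorial * vol N d)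
    (hch : ∀ N x : ℕ, x ≤ N → 2 ^ (min x (N - x)) ≤ N.choose x)
    (X : Finset (V × Fin N)) (D : ℕ) {α : ℝ}
    (hm : ∃ v, α * N ≤ (fib X v).card ∧ ((fib X v).card : ℝ) ≤ (1 - α) * N) :
    ((Fintype.piFinset fun e : E => univ.filter fun σ : Equiv.Perm (Fin N) =>
      dev σ (fib X (B.t e)) (fib X (B.h e)) ≤ D).card : ℝ) ≤
      ((N.factorial : ℝ) * vol N D) ^ Fintype.card E * (2 : ℝ) ^ (-(α * N / 2)) *
        ∏ v, (1 / (N.choose (fib X v).card) : ℝ) := by
  have hle : ∀ v, (fib X v).card ≤ N := fun v => by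
    have := Finset.card_le_univ (fib X v)
    rwa [Fintype.card_fin] at this
  set g : V → ℝ := fun v => (N.choose (fib X v).card : ℝ) with hg
  have hg1 : ∀ v, 1 ≤ g v := fun v => by
    have : 0 < N.choose (fib X v).card := Nat.choose_pos (hle v)
    change (1 : ℝ) ≤ (N.choose (fib X v).card : ℝ)
    exact_mod_cast this
  have hg0 : ∀ v, 0 < g v := fun v => lt_of_lt_of_le one_pos (hg1 v)
  set f : E → ℝ := fun e => ((univ.filter fun σ : Equiv.Perm (Fin N) =>
      dev σ (fib X (B.t e)) (fib X (B.h e)) ≤ D).card : ℝ) with hf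
  have hf0 : ∀ e, 0 ≤ f e := fun e => Nat.cast_nonneg _
  set T : ℝ := (N.factorial : ℝ) * vol N D with hT
  have hT0 : 0 ≤ T := by positivity
  have e1 : ∀ e, f e * g (B.t e) ≤ T := fun e => by
    have := (hu2 N (fib X (B.t e)) (fib X (B.h e)) D).1
    rw [hf, hg, hT]
    simp only
    exact_mod_cast this
  have e2 : ∀ e, f e * g (B.h e) ≤ T := fun e => by
    have := (hu2 N (fib X (B.t e)) (fib X (B.h e)) D).2
    rw [hf, hg, hT]
    simp only
    exact_mod_cast this
  set G : ℝ := ∏ v, g v with hG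
  have hG0 : 0 < G := Finset.prod_pos fun v _ => hg0 v
  have hF : (∏ e, f e) ^ 2 * G ^ 3 ≤ (T ^ Fintype.card E) ^ 2 := by
    have h1 : (∏ e, f e) ^ 2 * G ^ 3 = ∏ e, ((f e * g (B.t e)) * (f e * g (B.h e))) := by
      have h2 : ∏ e, ((f e * g (B.t e)) * (f e * g (B.h e))) =
          ∏ e, (f e ^ 2 * (g (B.t e) * g (B.h e))) :=
        Finset.prod_congr rfl fun e _ => by ring
      rw [h2, Finset.prod_mul_distrib, prod_ends B hc g, Finset.prod_pow, Finset.prod_pow]
    rw [h1]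
    have h3 : (T ^ Fintype.card E) ^ 2 = ∏ _e : E, T * T := by
      rw [Finset.prod_const, Finset.card_univ]
      ring
    rw [h3]
    exact Finset.prod_le_prod (fun e _ => mul_nonneg (mul_nonneg (hf0 e) (hg0 _).le)
      (mul_nonneg (hf0 e) (hg0 _).le)) fun e _ => mul_le_mul (e1 e) (e2 e)
        (mul_nonneg (hf0 e) (hg0 _).le) hT0
  set s : ℝ := (2 : ℝ) ^ (-(α * N / 2)) with hs
  have hs0 : 0 < s := Real.rpow_pos_of_pos (by norm_num) _
  have hGs : 1 ≤ G * s ^ 2 := by
    obtain ⟨v, hv1, hv2⟩ := hm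
    have h1 : (2 : ℝ) ^ (α * N) ≤ g v := by
      have h2 : (2 : ℝ) ^ (min (fib X v).card (N - (fib X v).card)) ≤ g v := by
        change (2 : ℝ) ^ (min (fib X v).card (N - (fib X v).card)) ≤
          (N.choose (fib X v).card : ℝ)
        exact_mod_cast hch N _ (hle v)
      refine le_trans ?_ h2
      rw [← Real.rpow_natCast]
      refine Real.rpow_le_rpow_of_exponent_le (by norm_num) ?_
      rw [Nat.cast_min, Nat.cast_sub (hle v)]
      exact le_min hv1 (by linarith)
    have h3 : g v ≤ G := by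
      rw [hG, ← Finset.mul_prod_erase univ g (Finset.mem_univ v)]
      have h4 : 1 ≤ ∏ x ∈ univ.erase v, g x := by
        have h5 : ∏ _x ∈ univ.erase v, (1 : ℝ) ≤ ∏ x ∈ univ.erase v, g x :=
          Finset.prod_le_prod (fun _ _ => zero_le_one) fun x _ => hg1 x
        rwa [Finset.prod_const_one] at h5
      nlinarith [hg0 v]
    have h6 : s ^ 2 = (2 : ℝ) ^ (-(α * N)) := by
      rw [hs, ← Real.rpow_natCast, ← Real.rpow_mul (by norm_num)]
      congr 1
      push_cast
      ring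
    have h7 : (2 : ℝ) ^ (α * N) * (2 : ℝ) ^ (-(α * N)) = 1 := by
      rw [← Real.rpow_add (by norm_num), add_neg_cancel, Real.rpow_zero]
    rw [h6, ← h7]
    exact mul_le_mul_of_nonneg_right (h1.trans h3) (Real.rpow_nonneg (by norm_num) _)
  have hP0 : 0 ≤ ∏ e, f e := Finset.prod_nonneg fun e _ => hf0 e
  have hmain : (∏ e, f e) * G ≤ T ^ Fintype.card E * s :=
    absIneq hP0 hG0 (pow_nonneg hT0 _) hs0 hF hGs
  have hcard : ((Fintype.piFinset fun e : E => univ.filter fun σ : Equiv.Perm (Fin N) =>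
      dev σ (fib X (B.t e)) (fib X (B.h e)) ≤ D).card : ℝ) = ∏ e, f e := by
    rw [Fintype.card_piFinset]
    push_cast
    rfl
  rw [hcard]
  have hinv : ∏ v, (1 / (N.choose (fib X v).card) : ℝ) = G⁻¹ := by
    rw [hG, ← Finset.prod_inv_distrib]
    exact Finset.prod_congr rfl fun v _ => one_div _
  rw [hinv, ← div_eq_mul_inv, le_div_iff₀ hG0]
  exact hmain

end

/-- LF/BIG: large sets of vertices of a random lift. -/
theorem big
    (hu2 : ∀ (N : ℕ) (A B : Finset (Fin N)) (d : ℕ),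
      (univ.filter (fun σ : Equiv.Perm (Fin N) =>
        (univ.filter (fun i => ¬ (i ∈ A ↔ σ i ∈ B))).card ≤ d)).card * N.choose A.card ≤
          N.factorial * vol N d ∧
      (univ.filter (fun σ : Equiv.Perm (Fin N) =>
        (univ.filter (fun i => ¬ (i ∈ A ↔ σ i ∈ B))).card ≤ d)).card * N.choose B.card ≤
          N.factorial * vol N d)
    (hvol : ∀ γ : ℝ, 0 < γ → ∃ δ : ℝ, 0 < δ ∧ ∀ N d : ℕ, (d : ℝ) ≤ δ * N →
      (vol N d : ℝ) ≤ (2 : ℝ) ^ (γ * N))
    (hch : ∀ N x : ℕ, x ≤ N → 2 ^ (min x (N - x)) ≤ N.choose x)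
    (V E : Type) [Fintype V] [Fintype E] [DecidableEq V] [DecidableEq E]
    (B : OrGraph V E) (hc : B.Cubic) (hB : Connected B) (c : ℝ) (hc0 : 0 < c) :
    ∃ d C : ℝ, 0 < d ∧ ∀ N : ℕ, 1 ≤ N →
      (({p : E → Equiv.Perm (Fin N) | ∃ X : Finset (V × Fin N),
        c * N ≤ X.card ∧ 2 * X.card ≤ Fintype.card V * N ∧
          (((lift B p).cut X).card : ℝ) ≤ d * N}.ncard : ℕ) : ℝ) ≤
        C / N * ((N.factorial : ℝ) ^ Fintype.card E) := by
  classical
  set n := Fintype.card V with hn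
  set m := Fintype.card E with hm
  have hn0 : (0 : ℝ) ≤ n := Nat.cast_nonneg _
  have hm0 : (0 : ℝ) ≤ m := Nat.cast_nonneg _
  set α : ℝ := min (c / (2 * (n + 1))) (1 / 4) with hα
  have hα0 : 0 < α := lt_min (by positivity) (by norm_num)
  have hα1 : α * (n + 1) ≤ c / 2 := by
    have h1 : α ≤ c / (2 * (n + 1)) := min_le_left _ _
    calc α * (n + 1) ≤ c / (2 * (n + 1)) * (n + 1) := mul_le_mul_of_nonneg_right h1 (by positivity)
      _ = c / 2 := by field_simp
  have hα2 : α ≤ 1 / 4 := min_le_right _ _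
  set γ : ℝ := α / (4 * (m + 1)) with hγ
  have hγ0 : 0 < γ := by positivity
  have hγm : γ * m ≤ α / 4 := by
    rw [hγ, div_mul_eq_mul_div, div_le_div_iff₀ (by positivity) (by norm_num)]
    nlinarith
  obtain ⟨δ, hδ, hvol'⟩ := hvol γ hγ0
  set d : ℝ := min δ (1 / 4) with hd
  have hd0 : 0 < d := lt_min hδ (by norm_num)
  set r : ℝ := (2 : ℝ) ^ (-(α / 4)) with hr
  have hr0 : 0 < r := Real.rpow_pos_of_pos (by norm_num) _
  have hr1 : r < 1 := Real.rpow_lt_one_of_one_lt_of_neg (by norm_num) (by linarith)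
  obtain ⟨C₀, hC₀⟩ := (tendsto_pow_const_mul_const_pow_of_lt_one (n + 1) hr0.le hr1).bddAbove_range
  have hC₀' : ∀ k : ℕ, (k : ℝ) ^ (n + 1) * r ^ k ≤ C₀ := fun k => hC₀ ⟨k, rfl⟩
  refine ⟨d, C₀ / r, hd0, fun N hN => ?_⟩
  have hN0 : (0 : ℝ) < N := by exact_mod_cast hN
  set D : ℕ := ⌊d * N⌋₊ with hD
  have hDle : (D : ℝ) ≤ d * N := Nat.floor_le (by positivity)
  have hW : (vol N D : ℝ) ≤ (2 : ℝ) ^ (γ * N) :=
    hvol' N D (hDle.trans (mul_le_mul_of_nonneg_right (min_le_left _ _) hN0.le))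
  set good : Finset (Finset (V × Fin N)) := univ.filter fun X =>
    ∃ v, α * N ≤ (fib X v).card ∧ ((fib X v).card : ℝ) ≤ (1 - α) * N with hgood
  set S : Finset (V × Fin N) → Finset (E → Equiv.Perm (Fin N)) := fun X =>
    Fintype.piFinset fun e : E => univ.filter fun σ : Equiv.Perm (Fin N) =>
      dev σ (fib X (B.t e)) (fib X (B.h e)) ≤ D with hS
  have hsub : {p : E → Equiv.Perm (Fin N) | ∃ X : Finset (V × Fin N),
        c * N ≤ X.card ∧ 2 * X.card ≤ n * N ∧
          (((lift B p).cut X).card : ℝ) ≤ d * N} ⊆ ((good.biUnion S : Finset _) : Set _) := by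
    rintro p ⟨X, h1, h2, h3⟩
    have h4 := middle B hB hc0 hα1 hα2 (min_le_right _ _) hN hα0 p X h1 h2 h3
    rw [Finset.mem_coe, Finset.mem_biUnion]
    refine ⟨X, Finset.mem_filter.2 ⟨Finset.mem_univ _, h4⟩, ?_⟩
    rw [hS]
    simp only
    rw [Fintype.mem_piFinset]
    intro e
    refine Finset.mem_filter.2 ⟨Finset.mem_univ _, ?_⟩
    refine Nat.le_floor ?_
    exact le_trans (by exact_mod_cast dev_le_cut B p X e) h3
  have h1 : (({p : E → Equiv.Perm (Fin N) | ∃ X : Finset (V × Fin N),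
        c * N ≤ X.card ∧ 2 * X.card ≤ n * N ∧
          (((lift B p).cut X).card : ℝ) ≤ d * N}.ncard : ℕ) : ℝ) ≤
      ∑ X ∈ good, ((S X).card : ℝ) := by
    have h2 := Set.ncard_le_ncard hsub (Finset.finite_toSet _)
    rw [Set.ncard_coe_finset] at h2
    have h3 := h2.trans Finset.card_biUnion_le
    exact_mod_cast h3
  set T : ℝ := (N.factorial : ℝ) * vol N D with hT
  set s : ℝ := (2 : ℝ) ^ (-(α * N / 2)) with hs
  have hs0 : 0 < s := Real.rpow_pos_of_pos (by norm_num) _
  have h2 : ∑ X ∈ good, ((S X).card : ℝ) ≤ T ^ m * s * ((N : ℝ) + 1) ^ n := by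
    calc ∑ X ∈ good, ((S X).card : ℝ)
        ≤ ∑ X ∈ good, T ^ m * s * ∏ v, (1 / (N.choose (fib X v).card) : ℝ) :=
          Finset.sum_le_sum fun X hX => count B hc hu2 hch X D (Finset.mem_filter.1 hX).2
      _ ≤ ∑ X : Finset (V × Fin N), T ^ m * s * ∏ v, (1 / (N.choose (fib X v).card) : ℝ) :=
          Finset.sum_le_sum_of_subset_of_nonneg (Finset.subset_univ _) fun X _ _ =>
            mul_nonneg (by positivity) (Finset.prod_nonneg fun v _ => by positivity)
      _ = T ^ m * s * ∑ X : Finset (V × Fin N), ∏ v, (1 / (N.choose (fib X v).card) : ℝ) := by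
          rw [Finset.mul_sum]
      _ ≤ T ^ m * s * ((N : ℝ) + 1) ^ n :=
          mul_le_mul_of_nonneg_left (sum_inv V N) (by positivity)
  have h3 : T ^ m * s ≤ (N.factorial : ℝ) ^ m * r ^ N := by
    have e1 : (vol N D : ℝ) ^ m ≤ (2 : ℝ) ^ (α / 4 * N) := by
      calc (vol N D : ℝ) ^ m ≤ ((2 : ℝ) ^ (γ * N)) ^ m :=
            pow_le_pow_left₀ (Nat.cast_nonneg _) hW m
        _ = (2 : ℝ) ^ (γ * m * N) := by
            rw [← Real.rpow_natCast, ← Real.rpow_mul (by norm_num)]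
            congr 1
            ring
        _ ≤ (2 : ℝ) ^ (α / 4 * N) :=
            Real.rpow_le_rpow_of_exponent_le (by norm_num)
              (mul_le_mul_of_nonneg_right hγm hN0.le)
    have e2 : (2 : ℝ) ^ (α / 4 * N) * s = r ^ N := by
      rw [hs, hr, ← Real.rpow_natCast, ← Real.rpow_mul (by norm_num),
        ← Real.rpow_add (by norm_num)]
      congr 1
      ring
    rw [hT, mul_pow, mul_assoc]
    refine mul_le_mul_of_nonneg_left ?_ (by positivity)
    rw [← e2]
    exact mul_le_mul_of_nonneg_right e1 hs0.le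
  have h4 : r ^ N * ((N : ℝ) + 1) ^ n ≤ C₀ / r / N := by
    have e1 := hC₀' (N + 1)
    push_cast at e1
    rw [le_div_iff₀ hN0, le_div_iff₀ hr0]
    calc r ^ N * ((N : ℝ) + 1) ^ n * N * r
        ≤ r ^ N * ((N : ℝ) + 1) ^ n * (N + 1) * r := by
          have : (0 : ℝ) ≤ r ^ N * ((N : ℝ) + 1) ^ n := by positivity
          nlinarith [mul_nonneg this hr0.le]
      _ = ((N : ℝ) + 1) ^ (n + 1) * r ^ (N + 1) := by ring
      _ ≤ C₀ := e1
  calc (({p : E → Equiv.Perm (Fin N) | ∃ X : Finset (V × Fin N),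
        c * N ≤ X.card ∧ 2 * X.card ≤ n * N ∧
          (((lift B p).cut X).card : ℝ) ≤ d * N}.ncard : ℕ) : ℝ)
      ≤ T ^ m * s * ((N : ℝ) + 1) ^ n := h1.trans h2
    _ ≤ (N.factorial : ℝ) ^ m * r ^ N * ((N : ℝ) + 1) ^ n :=
        mul_le_mul_of_nonneg_right h3 (by positivity)
    _ = (N.factorial : ℝ) ^ m * (r ^ N * ((N : ℝ) + 1) ^ n) := by ring
    _ ≤ (N.factorial : ℝ) ^ m * (C₀ / r / N) := mul_le_mul_of_nonneg_left h4 (by positivity)
    _ = C₀ / r / N * (N.factorial : ℝ) ^ m := by ring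

end Pool.Agent.N492.LF
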